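import Mathlib

set_option autoImplicit false

namespace Pool.Agent.H.MP_08c285_gt

open Set Function Cardinal Order

universe u

variable {G : Type u} [Group G]

/-- entourages of the ballean given by the ideal of subsets of size less than the size of `G` -/
def Ent (E : Set (G × G)) : Prop :=
  ∃ A : Set G, #A < #G ∧ 1 ∈ A ∧ A = A⁻¹ ∧ E ⊆ {p | ∃ a ∈ A, p.2 = p.1 * a}

/-- the ball of radius `E` around `S` -/
def img (E : Set (G × G)) (S : Set G) : Set G := {y | ∃ x ∈ S, (x, y) ∈ E}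

/-- asymptotically disjoint sets -/
def AD (P Q : Set G) : Prop := ∀ E, Ent E → #↥(img E P ∩ img E Q) < #G

/-- asymptotic neighbourhoods -/
def AN (U P : Set G) : Prop := ∀ E, Ent E → #↥(img E P \ U) < #G

/-- normality of the ballean -/
def Normal (G : Type u) [Group G] : Prop :=
  ∀ P Q : Set G, AD P Q → ∃ U V, AN U P ∧ AN V Q ∧ AD U V

theorem rc {κ : Cardinal.{u}} {α : Type u} (Φ : κ.ord.ToType → Set α → Set α) (hα : #α = κ)
    (h : ∀ k (S : Set α), #S < κ → #(Φ k S) < κ) :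
    ∃ s : κ.ord.ToType → α, ∀ k, s k ∉ Φ k (s '' Iio k) := by
  have : ∀ k (f : Iio k → α), ∃ x, x ∉ Φ k (range f) := fun k f =>
    (ne_univ_iff_exists_notMem _).1 fun e => (h k _ (mk_range_le.trans_lt
      ((mk_Iio_lt k (by simp)).trans_eq (by simp)))).ne (by rw [e, mk_univ, hα])
  choose x hx using this
  let s : κ.ord.ToType → α := wellFounded_lt.fix fun k ih => x k fun j => ih j j.2
  refine ⟨s, fun k => ?_⟩
  rw [image_eq_range, show s k = _ from wellFounded_lt.fix_eq _ k]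
  exact hx k _

theorem mi {α β : Type u} {f : α → β} {s : Set α} {t : Set β} (a : MapsTo f s t) (b : InjOn f s) :
    #s ≤ #t := (mk_image_eq_of_injOn f s b).ge.trans (mk_le_mk_of_subset a.image_subset)

theorem main [Infinite G] (H : Normal G) : (#G).IsRegular := by
  by_contra nr
  have i0 : ℵ₀ < #G := (aleph0_le_mk G).lt_of_ne fun e => nr (e ▸ isRegular_aleph0)
  let K := (#G).ord.ToType
  have mK : #K = #G := by simp [K]
  have sm : ∀ k : K, #(Iic k) < #G := fun k =>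
    (mk_Iic_lt k (by simp [K]) (i0.le.trans_eq mK.symm)).trans_eq mK
  have : Nonempty K := mk_ne_zero_iff.1 (mK.trans_ne (aleph0_pos.trans i0).ne')
  obtain ⟨S, s1, s2⟩ := exists_cof_eq K
  replace s2 : #S < #G := s2.trans_lt (not_le.1 fun c => nr ⟨i0.le, by simpa [K] using c⟩)
  obtain ⟨s, hs⟩ := rc (κ := #G) (fun _ S => (Subgroup.closure S : Set G)) rfl fun _ S c => by
    refine (mk_le_mk_of_subset (t := (Subgroup.closure (insert 1 S) : Set G))
      (Subgroup.closure_mono (subset_insert 1 S))).trans_lt ?_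
    have := (insert_nonempty 1 S).to_subtype
    rw [FreeGroup.closure_eq_range, MonoidHom.coe_range]
    exact mk_range_le.trans_lt ((mk_freeGroup _).trans_lt (max_lt (mk_insert_le.trans_lt
      (add_lt_of_lt i0.le c (one_lt_aleph0.trans i0))) i0))
  obtain ⟨e⟩ := Cardinal.eq.1 (show #K = #(K × K) by simp [mK, mul_eq_self i0.le])
  obtain ⟨x, hx⟩ := rc (κ := #G) (fun k S => S ∪ (Iic (e k).1 ∪ Iic (e k).2)) mK fun k S c =>
    (mk_union_le _ _).trans_lt (add_lt_of_lt i0.le c ((mk_union_le _ _).trans_lt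
      (add_lt_of_lt i0.le (sm _) (sm _))))
  let ξ : K × K → K := x ∘ e.symm
  have x0 : Injective ξ := (Injective.of_lt_imp_ne fun a b l c => hx b (.inl ⟨a, l, c⟩)).comp
    e.symm.injective
  have x1 : ∀ p, p.1 < ξ p := fun p => not_le.1 fun c => hx (e.symm p) (.inr (.inl (by simpa [ξ] using c)))
  have x2 : ∀ p, p.2 < ξ p := fun p => not_le.1 fun c => hx (e.symm p) (.inr (.inr (by simpa [ξ] using c)))
  have m : ∀ {a b}, a < b → s a ∈ Subgroup.closure (s '' Iio b) := fun l =>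
    Subgroup.subset_closure ⟨_, l, rfl⟩
  have s0 : Injective s := Injective.of_lt_imp_ne fun a b l c => hs b (c ▸ m l)
  have : ∀ c : G, ∃ k, ∀ j, ∀ u ∈ Subgroup.closure (s '' Iio j), ∀ v ∈ Subgroup.closure (s '' Iio j),
      c = u * s j * v ∨ c⁻¹ = u * s j * v → j = k := fun c => by
    have f : ∀ i j, ∀ u ∈ Subgroup.closure (s '' Iio i), ∀ v ∈ Subgroup.closure (s '' Iio i),
        c = u * s i * v ∨ c⁻¹ = u * s i * v → ∀ u ∈ Subgroup.closure (s '' Iio j),
        ∀ v ∈ Subgroup.closure (s '' Iio j), c = u * s j * v ∨ c⁻¹ = u * s j * v → ¬ i < j :=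
      fun i j u a v b p u' a' v' b' q l => by
        have n := Subgroup.closure_mono (image_mono (f := s) (Iio_subset_Iio l.le))
        have := mul_mem (mul_mem (n a) (m l)) (n b)
        have : c ∈ _ := p.elim (· ▸ this) fun p => inv_mem_iff.1 (p ▸ this)
        exact hs j ((mul_mem_cancel_left a').1 ((mul_mem_cancel_right b').1
          (q.elim (· ▸ this) (· ▸ inv_mem this))))
    by_contra! n
    obtain ⟨i, u, a, v, b, p, -⟩ := n (Classical.arbitrary K)
    obtain ⟨j, u', a', v', b', q, r⟩ := n i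
    exact r (le_antisymm (not_lt.1 (f _ _ u a v b p u' a' v' b' q))
      (not_lt.1 (f _ _ u' a' v' b' q u a v b p)))
  choose k hk using this
  let α : K × K → G := fun p => s (ξ p) * (s p.1)⁻¹
  let β : K × K → G := fun p => s (ξ p) * (s p.2)⁻¹
  let T : G → Set G := fun c => {α (invFun ξ (k c)), β (invFun ξ (k c)) * c,
    α (invFun s (c⁻¹ * s (k c)), k c), α (k c, invFun s (c * s (k c)))}
  have t : ∀ p q : K × K, p.1 ≠ p.2 → α p ∈ T ((β q)⁻¹ * α p) := fun p q n => by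
    dsimp only [T]
    rcases lt_trichotomy (ξ p) (ξ q) with l | l | l
    · rw [← hk _ (ξ q) (α p)⁻¹ (inv_mem (mul_mem (m l) (inv_mem (m ((x1 p).trans l))))) _
        (inv_mem (m (x2 q))) (.inr (by simp [β, mul_assoc])), leftInverse_invFun x0]
      simp
    · obtain rfl := x0 l
      have c : (β p)⁻¹ * α p = s p.2 * (s p.1)⁻¹ := by simp [α, β, mul_assoc]
      rcases n.lt_or_gt with l | l
      · rw [← hk _ p.2 1 (one_mem _) _ (inv_mem (m l)) (.inl (by simp [c]))]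
        simp [c, leftInverse_invFun s0 _]
      rw [← hk _ p.1 1 (one_mem _) _ (inv_mem (m l)) (.inr (by simp [c]))]
      simp [c, leftInverse_invFun s0 _]
    rw [← hk _ (ξ p) (β q)⁻¹ (inv_mem (mul_mem (m l) (inv_mem (m ((x2 q).trans l))))) _
      (inv_mem (m (x1 p))) (.inl (by simp [α, mul_assoc])), leftInverse_invFun x0]
    simp
  obtain ⟨U, V, hU, hV, hUV⟩ := H (α '' {p | p.1 ≠ p.2}) (β '' {p | p.1 ≠ p.2})
    fun E ⟨F, f1, _, _, f2⟩ => by
      refine (mk_le_mk_of_subset (t := ⋃ f ∈ F ×ˢ F, (· * f.1) '' T (f.2 * f.1⁻¹)) ?_).trans_lt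
        ((mk_biUnion_le _ _).trans_lt (mul_lt_of_lt i0.le (mk_setProd _ _ ▸ mul_lt_of_lt i0.le f1 f1)
          ((ciSup_le' fun f => le_aleph0_iff_set_countable.2 ((toFinite _).countable.image _)).trans_lt
            i0)))
      rintro y ⟨⟨_, ⟨p, n, rfl⟩, a⟩, _, ⟨q, -, rfl⟩, b⟩
      obtain ⟨f, a, c⟩ := f2 a
      obtain ⟨g, b, d⟩ := f2 b
      refine mem_iUnion₂.2 ⟨(f, g), ⟨a, b⟩, _, ?_, c.symm⟩
      rw [show g * f⁻¹ = (β q)⁻¹ * α p by
        rw [eq_inv_mul_iff_mul_eq, ← mul_assoc, mul_inv_eq_iff_eq_mul]; exact d.symm.trans c]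
      exact t p q n
  have un : ∀ U P : Set G, AN U P → ∃ μ < #G, ∀ g, #↥((· * g) '' P \ U) ≤ μ := fun U P a => by
    by_contra! c
    choose g hg using fun k => c _ (sm k)
    have l := mk_image_le.trans_lt s2 (a := #(g '' S))
    have := a {p | ∃ a ∈ insert 1 (g '' S ∪ (g '' S)⁻¹), p.2 = p.1 * a} ⟨_, mk_insert_le.trans_lt
      (add_lt_of_lt i0.le ((mk_union_le _ _).trans_lt (add_lt_of_lt i0.le l (by simpa using l)))
        (one_lt_aleph0.trans i0)), .inl rfl, by simp [union_comm], Subset.rfl⟩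
    refine (((mk_biUnion_le Iic S).trans_lt (mul_lt_of_lt i0.le s2 ((ciSup_le' fun k : S =>
      (hg k).le.trans (mk_le_mk_of_subset ?_)).trans_lt this))).trans_eq mK.symm).ne ?_
    · rintro _ ⟨⟨y, p, rfl⟩, q⟩
      exact ⟨⟨y, p, _, .inr (.inl ⟨_, k.2, rfl⟩), rfl⟩, q⟩
    rw [isCofinal_iff_iUnion_Iic_eq_univ.1 s1, mk_univ]
  obtain ⟨μ, m1, m2⟩ := un _ _ hU
  obtain ⟨ν, n1, n2⟩ := un _ _ hV
  have d := hUV {p | p.2 = p.1} ⟨{1}, by simpa using one_lt_aleph0.trans i0, rfl, by simp,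
    fun p h => ⟨1, rfl, by simpa using h⟩⟩
  let τ := max (max ℵ₀ #↥(U ∩ V)) (max μ ν)
  have t0 : ℵ₀ ≤ τ := le_max_of_le_left (le_max_left _ _)
  have t1 : succ τ < #G := (succ_le_of_lt (max_lt (max_lt i0 (d.trans_le' (mk_le_mk_of_subset fun y p =>
    ⟨⟨y, p.1, rfl⟩, y, p.2, rfl⟩))) (max_lt m1 n1))).lt_of_ne fun e =>
      nr (e ▸ isRegular_succ t0)
  obtain ⟨P, hP⟩ := le_mk_iff_exists_set.1 (t1.le.trans_eq mK.symm)
  have sx := s0.comp x0
  obtain ⟨η, hη⟩ := (ne_univ_iff_exists_notMem (P ∪ ⋃ γ ∈ P, {η | γ ≠ η ∧ s (ξ (γ, η)) ∉ U})).1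
    fun c => (((mk_union_le _ _).trans_lt (add_lt_of_lt i0.le (hP ▸ t1) ((mk_biUnion_le _ _).trans_lt
      (mul_lt_of_lt i0.le (hP ▸ t1) ((ciSup_le' fun γ : P => (mi (s := {η | γ.1 ≠ η ∧ s (ξ (γ.1, η)) ∉ U})
        (t := (· * s γ) '' (α '' {p | p.1 ≠ p.2}) \ U)
        (f := fun η => s (ξ (γ.1, η))) (fun η p => ⟨⟨_, ⟨(γ.1, η), p.1, rfl⟩, by simp [α]⟩, p.2⟩)
          fun _ _ _ _ c => (Prod.mk.inj (sx c)).2).trans (m2 (s γ))).trans_lt m1))))).trans_eq
            mK.symm).ne (by rw [c, mk_univ])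
  refine (lt_succ τ).not_ge (hP.ge.trans ((mi (f := fun γ => s (ξ (γ, η)))
    (t := U ∩ V ∪ (· * s η) '' (β '' {p | p.1 ≠ p.2}) \ V) (fun γ p => ?_) fun _ _ _ _ c =>
      (Prod.mk.inj (sx c)).1).trans ((mk_union_le _ _).trans (add_le_of_le t0 (le_max_of_le_left
        (le_max_right _ _)) ((n2 _).trans (le_max_of_le_right (le_max_right _ _)))))))
  have n : γ ≠ η := fun c => hη (.inl (c ▸ p))
  exact (em _).imp (⟨by_contra fun c => hη (.inr (mem_biUnion p ⟨n, c⟩)), ·⟩)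
    (⟨⟨_, ⟨(γ, η), n, rfl⟩, by simp [β]⟩, ·⟩)

end Pool.Agent.H.MP_08c285_gt
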